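import Pool.Agent.H492.GT.Lead

/-!
# The motivic Galois group and GT: the depth five part of the Grothendieck-Teichmüller Lie algebra

`IsGRT ψ`: `ψ` is in Drinfeld's Lie algebra `grt_1`, the graded Lie algebra of the prounipotent radical of `GT`:
a Lie polynomial `ψ(x₀, x₁)` with the antisymmetry, the hexagon, the special derivation and the pentagon relation.
`grtD N r`: the elements of `grt_1` which are homogeneous of weight `N` and of depth at least `r` (every word of `ψ`
has at least `r` letters `x₁`); `grgrt N r = gr_r grt_N = grtD N r / grtD N (r + 1)`.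

**Theorem.** `dim gr₅ grt_N ≤ (1/155) C(N + 993, 4)` for all `N ≥ 5`.

If `G_π = GT` then `dim gr₅ grt_N` is the dimension of `gr₅` of the motivic Lie algebra, which the conjecture of
Broadhurst and Kreimer predicts to be `(11/69120) N⁴ + O(N³)` for odd `N`; the bound is `(1/3720) N⁴ + O(N³)`.
-/

set_option autoImplicit false

namespace Pool.Agent.Results.MP_446dfa_ag.GrtDepthFive

open Pool.Agent.H492.UB Pool.Agent.H492.GT

theorem result (N : ℕ) (hN : 5 ≤ N) :
    Module.Finite ℚ (grgrt N 5) ∧ 155 * Module.finrank ℚ (grgrt N 5) ≤ (N + 993).choose 4 := by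
  obtain ⟨e, rfl⟩ : ∃ e, N = e + 5 := ⟨N - 5, by omega⟩
  have h5 := (Pool.Agent.H492.GT.gr_le (e + 5) 5 (by norm_num)).1
  rw [Nat.add_sub_cancel] at h5
  exact ⟨Pool.Agent.H492.GT.finite_gr (e + 5) 5 (by norm_num), (Nat.mul_le_mul_left _ h5).trans (ls5_le e)⟩

end Pool.Agent.Results.MP_446dfa_ag.GrtDepthFive
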