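import Pool.Agent.H492.GT.Lead
import Pool.Agent.H492.CT.Final

/-!
# The motivic Galois group and GT: the depth four part of the Grothendieck-Teichmüller Lie algebra

`IsGRT ψ`: `ψ` is in Drinfeld's Lie algebra `grt_1`, the graded Lie algebra of the prounipotent radical of `GT`:
a Lie polynomial `ψ(x₀, x₁)` with the antisymmetry, the hexagon, the special derivation and the pentagon relation.
`grtD N r`: the elements of `grt_1` which are homogeneous of weight `N` and of depth at least `r` (every word of `ψ`
has at least `r` letters `x₁`); `grgrt N r = gr_r grt_N = grtD N r / grtD N (r + 1)`.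

**Theorem.** `dim gr₄ grt_N ≤ (373/29952) C(N + 3242, 3)` for all `N ≥ 4`, and `gr₄ grt_N = 0` for odd `N`.

If `G_π = GT` then `dim gr₄ grt_N` is the dimension of `gr₄` of the motivic Lie algebra, which the conjecture of
Broadhurst and Kreimer predicts to be `(7/3456) N³ + O(N²)` for even `N`; the bound is `(373/179712) N³ + O(N²)`,
which is `1.0247…` times as large.
-/

set_option autoImplicit false

namespace Pool.Agent.Results.MP_446dfa_ag.GrtDepthFour

open Pool.Agent.H492.UB Pool.Agent.H492.GT

theorem result (N : ℕ) (hN : 4 ≤ N) :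
    Module.Finite ℚ (grgrt N 4) ∧
      29952 * Module.finrank ℚ (grgrt N 4) ≤ 373 * (N + 3242).choose 3 ∧
      (Odd N → Module.finrank ℚ (grgrt N 4) = 0) := by
  obtain ⟨e, rfl⟩ : ∃ e, N = e + 4 := ⟨N - 4, by omega⟩
  have h4 := (Pool.Agent.H492.GT.gr_le (e + 4) 4 (by norm_num)).1
  rw [Nat.add_sub_cancel] at h4
  have h5 := ls_le_W 4 e (by norm_num)
  refine ⟨Pool.Agent.H492.GT.finite_gr (e + 4) 4 (by norm_num),
    (Nat.mul_le_mul_left _ (h4.trans h5)).trans (Pool.Agent.H492.CT.w4_le e), fun he => ?_⟩
  have h6 : Odd e := by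
    rcases Nat.even_or_odd e with h | h
    · exact absurd he (by rw [Nat.not_odd_iff_even]; exact h.add (by decide))
    · exact h
  rw [sOdd e h6, finrank_bot] at h5
  omega

end Pool.Agent.Results.MP_446dfa_ag.GrtDepthFour
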